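import Pool.Agent.Helper62.SW.Orbits

/-!
# Almost all switching classes are reconstructible, in fact from any three cards
-/

set_option autoImplicit false

namespace Pool.Agent.Results.MP_87adae_co.AlmostAllClasses

open Pool.Agent.Helper62.SW Filter Topology

/-- Any three cards of `G` determine the switching class of `G`: if, for three different vertices
`u i`, the card `G - u i` is switching equivalent to a card `H - v i` of a graph `H` with the same
number of vertices, then `H` lies in the class of `G`. -/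
def ThreeCardsDetermine {n : ℕ} (G : SimpleGraph (Fin n)) : Prop :=
  ∀ (H : SimpleGraph (Fin n)) (u v : Fin 3 → Fin n), Function.Injective u →
    (∀ i, SwEq (card G (u i)) (card H (v i))) → SwEq G H

/-- No two cards of `G` determine the switching class of `G`. -/
def TwoCardsFail {n : ℕ} (G : SimpleGraph (Fin n)) : Prop :=
  ∀ u v : Fin n, u ≠ v → ∃ H : SimpleGraph (Fin n), SwEq (card G u) (card H u) ∧
    SwEq (card G v) (card H v) ∧ ¬ SwEq G H

/-- All members `G` of the switching class `c` have the following properties: the class `[[G]]` is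
reconstructible, it is determined by any three cards, and it is not determined by any two cards. -/
def Good {n : ℕ} (c : SwClass (Fin n)) : Prop :=
  ∀ G : SimpleGraph (Fin n), ⟦G⟧ = c → Reconstructible G ∧ ThreeCardsDetermine G ∧ TwoCardsFail G

theorem three_of_rigid {n : ℕ} (hn : 4 ≤ n) {G : SimpleGraph (Fin n)} (hG : Rigid2 G) :
    ThreeCardsDetermine G := by
  intro H u v hu h
  refine hG.three H hu ?_ v h
  by_contra hcon
  push Not at hcon
  have h1 : Function.Surjective u := fun t => by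
    obtain ⟨i, hi⟩ := hcon t
    exact ⟨i, hi.symm⟩
  have h2 := Fintype.card_le_of_surjective u h1
  simp only [Fintype.card_fin] at h2
  omega

theorem two_of_rigid {n : ℕ} (hn : 4 ≤ n) {G : SimpleGraph (Fin n)} (hG : Rigid2 G) :
    TwoCardsFail G := by
  intro u v huv
  refine hG.two huv ?_
  by_contra hcon
  push Not at hcon
  have h1 : (Finset.univ : Finset (Fin n)) ⊆ {u, v} := by
    intro t _
    rw [Finset.mem_insert, Finset.mem_singleton]
    by_cases h : t = u
    · exact Or.inl h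
    · exact Or.inr (hcon t h)
  have h2 := Finset.card_le_card h1
  have h3 : ({u, v} : Finset (Fin n)).card ≤ 2 := Finset.card_le_two
  rw [Finset.card_univ, Fintype.card_fin] at h2
  omega

theorem recon_of_three {n : ℕ} (hn : 4 ≤ n) {H : SimpleGraph (Fin n)}
    (h : ThreeCardsDetermine H) : Reconstructible H := by
  rintro G ⟨π, hπ⟩
  refine h G (Fin.castLE (by omega)) (fun i => π.symm (Fin.castLE (by omega) i))
    (Fin.castLE_injective _) ?_
  intro i
  have h1 := hπ (π.symm (Fin.castLE (by omega) i))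
  rw [π.apply_symm_apply] at h1
  exact h1.symm

theorem not_good {n : ℕ} (hn : 4 ≤ n) {c : SwClass (Fin n)} (hc : ¬ Good c) :
    ∃ G, ⟦G⟧ = c ∧ ¬ Rigid2 G := by
  unfold Good at hc
  push Not at hc
  obtain ⟨G, hG, h⟩ := hc
  refine ⟨G, hG, fun hR => ?_⟩
  have h3 := three_of_rigid hn hR
  exact h (recon_of_three hn h3) h3 (two_of_rigid hn hR)

theorem del_le (n : ℕ) : del n ≤ (2 : ℝ) ^ ((8 - (n : ℝ)) / 24) := by
  unfold del
  apply Real.rpow_le_rpow_of_exponent_le (by norm_num)
  have h : (n : ℝ) - 8 ≤ ((n - 8 : ℕ) : ℝ) := by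
    rw [sub_le_iff_le_add]
    have : n ≤ (n - 8) + 8 := by omega
    exact_mod_cast this
  linarith

theorem not_good_le {n : ℕ} (hn : 4 ≤ n) : (Nat.card {c : SwClass (Fin n) // ¬ Good c} : ℝ) ≤
    4 * (n : ℝ) ^ 4 * (2 : ℝ) ^ ((8 - (n : ℝ)) / 24) * Nat.card (SwClass (Fin n)) := by
  classical
  have hn1 : (1 : ℝ) ≤ n := by exact_mod_cast (by omega : 1 ≤ n)
  have hN : (0 : ℝ) ≤ Nat.card (SwClass (Fin n)) := Nat.cast_nonneg _
  have hδ0 := del_pos n
  have h0 : 4 * (n : ℝ) ^ 4 * del n * Nat.card (SwClass (Fin n)) ≤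
      4 * (n : ℝ) ^ 4 * (2 : ℝ) ^ ((8 - (n : ℝ)) / 24) * Nat.card (SwClass (Fin n)) := by
    have := del_le n
    gcongr
  refine le_trans ?_ h0
  rcases le_or_gt ((n : ℝ) ^ 2 * del n) 1 with hsmall | hbig
  · have h1 : (Nat.card {c : SwClass (Fin n) // ¬ Good c} : ℝ) ≤ Nat.card (BadClass (Fin n)) := by
      have h2 : Nat.card {c : SwClass (Fin n) // ¬ Good c} ≤ Nat.card (BadClass (Fin n)) := by
        refine Nat.card_le_card_of_injective (fun c => ⟨c.1, not_good hn c.2⟩) ?_
        intro c c' h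
        apply Subtype.ext
        exact congrArg (fun x : BadClass (Fin n) => x.1) h
      exact_mod_cast h2
    have h2 := bad_classes (V := Fin n)
    rw [Fintype.card_fin] at h2
    have h3 : (1 + ((n : ℝ) - 1) * del n) ^ n - 1 ≤ 2 * ((n : ℝ) ^ 2 * del n) := by
      have h4 : 1 + ((n : ℝ) - 1) * del n ≤ Real.exp (((n : ℝ) - 1) * del n) := by
        have := Real.add_one_le_exp (((n : ℝ) - 1) * del n)
        linarith
      have h5 : (1 + ((n : ℝ) - 1) * del n) ^ n ≤ Real.exp ((n : ℝ) ^ 2 * del n) := by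
        calc (1 + ((n : ℝ) - 1) * del n) ^ n ≤ (Real.exp (((n : ℝ) - 1) * del n)) ^ n := by
              apply pow_le_pow_left₀ _ h4
              have : 0 ≤ ((n : ℝ) - 1) * del n := mul_nonneg (by linarith) hδ0.le
              linarith
          _ = Real.exp (n * (((n : ℝ) - 1) * del n)) := by rw [← Real.exp_nat_mul]
          _ ≤ Real.exp ((n : ℝ) ^ 2 * del n) := by
              apply Real.exp_le_exp.2
              nlinarith [mul_nonneg (by linarith : (0 : ℝ) ≤ n) hδ0.le]
      have h6 : 0 ≤ (n : ℝ) ^ 2 * del n := by positivity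
      have h7 := Real.abs_exp_sub_one_le (x := (n : ℝ) ^ 2 * del n)
        (by rw [abs_of_nonneg h6]; exact hsmall)
      rw [abs_of_nonneg h6] at h7
      have h8 := le_abs_self (Real.exp ((n : ℝ) ^ 2 * del n) - 1)
      linarith
    have h4 : ((n : ℝ) ^ 2 + n) * ((1 + ((n : ℝ) - 1) * del n) ^ n - 1) ≤
        4 * (n : ℝ) ^ 4 * del n := by
      calc ((n : ℝ) ^ 2 + n) * ((1 + ((n : ℝ) - 1) * del n) ^ n - 1)
          ≤ ((n : ℝ) ^ 2 + n) * (2 * ((n : ℝ) ^ 2 * del n)) := by gcongr
        _ ≤ ((n : ℝ) ^ 2 + n ^ 2) * (2 * ((n : ℝ) ^ 2 * del n)) := by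
            have : (n : ℝ) ≤ n ^ 2 := by nlinarith
            gcongr
        _ = 4 * (n : ℝ) ^ 4 * del n := by ring
    calc (Nat.card {c : SwClass (Fin n) // ¬ Good c} : ℝ)
        ≤ Nat.card (SwClass (Fin n)) *
          (((n : ℝ) ^ 2 + n) * ((1 + ((n : ℝ) - 1) * del n) ^ n - 1)) := h1.trans h2
      _ ≤ Nat.card (SwClass (Fin n)) * (4 * (n : ℝ) ^ 4 * del n) := by gcongr
      _ = _ := by ring
  · have h1 : (Nat.card {c : SwClass (Fin n) // ¬ Good c} : ℝ) ≤ Nat.card (SwClass (Fin n)) := by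
      exact_mod_cast Finite.card_subtype_le _
    have h2 : 1 ≤ 4 * (n : ℝ) ^ 4 * del n := by
      have h3 : (1 : ℝ) ≤ (n : ℝ) ^ 2 := one_le_pow₀ hn1
      have h4 : 4 * (n : ℝ) ^ 4 * del n = 4 * (n : ℝ) ^ 2 * ((n : ℝ) ^ 2 * del n) := by ring
      rw [h4]
      nlinarith
    calc (Nat.card {c : SwClass (Fin n) // ¬ Good c} : ℝ) ≤ 1 * Nat.card (SwClass (Fin n)) := by
          rw [one_mul]; exact h1
      _ ≤ _ := by gcongr

theorem bound_tendsto : Tendsto (fun n : ℕ => 4 * (n : ℝ) ^ 4 * (2 : ℝ) ^ ((8 - (n : ℝ)) / 24))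
    atTop (𝓝 0) := by
  have h1 : ∀ n : ℕ, 4 * (n : ℝ) ^ 4 * (2 : ℝ) ^ ((8 - (n : ℝ)) / 24) =
      (4 * (2 : ℝ) ^ ((8 : ℝ) / 24)) * ((n : ℝ) ^ 4 * ((2 : ℝ) ^ (-(1 : ℝ) / 24)) ^ n) := by
    intro n
    rw [← Real.rpow_natCast ((2 : ℝ) ^ (-(1 : ℝ) / 24)) n, ← Real.rpow_mul (by norm_num)]
    have h2 : (2 : ℝ) ^ ((8 - (n : ℝ)) / 24) = (2 : ℝ) ^ ((8 : ℝ) / 24) *
        (2 : ℝ) ^ (-(1 : ℝ) / 24 * (n : ℝ)) := by
      rw [← Real.rpow_add (by norm_num)]
      congr 1
      ring
    rw [h2]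
    ring
  simp only [h1]
  have h3 := tendsto_pow_const_mul_const_pow_of_abs_lt_one 4
    (r := (2 : ℝ) ^ (-(1 : ℝ) / 24)) (by
      rw [abs_of_nonneg (by positivity)]
      apply Real.rpow_lt_one_of_one_lt_of_neg (by norm_num) (by norm_num))
  simpa using h3.const_mul (4 * (2 : ℝ) ^ ((8 : ℝ) / 24))

/-- For `n ≥ 4`, all but a proportion `4 n^4 2^((8-n)/24)` of the switching classes of graphs with
`n` vertices are reconstructible, determined by any three cards, and not determined by any two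
cards; in particular almost all switching classes are reconstructible. -/
theorem result :
    (∀ n : ℕ, 4 ≤ n → (Nat.card {c : SwClass (Fin n) // ¬ Good c} : ℝ) ≤
      4 * (n : ℝ) ^ 4 * (2 : ℝ) ^ ((8 - (n : ℝ)) / 24) * Nat.card (SwClass (Fin n))) ∧
    Tendsto (fun n : ℕ => (Nat.card {c : SwClass (Fin n) // Good c} : ℝ) /
      Nat.card (SwClass (Fin n))) atTop (𝓝 1) := by
  classical
  refine ⟨fun n hn => not_good_le hn, ?_⟩
  have hpos : ∀ n : ℕ, (0 : ℝ) < Nat.card (SwClass (Fin n)) := by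
    intro n
    have : Nonempty (SwClass (Fin n)) := ⟨⟦⊥⟧⟩
    exact_mod_cast (Nat.card_pos : 0 < Nat.card (SwClass (Fin n)))
  have hsum : ∀ n : ℕ, (Nat.card {c : SwClass (Fin n) // Good c} : ℝ) +
      Nat.card {c : SwClass (Fin n) // ¬ Good c} = Nat.card (SwClass (Fin n)) := by
    intro n
    have h1 := Nat.card_congr (Equiv.sumCompl (fun c : SwClass (Fin n) => Good c))
    rw [Nat.card_sum] at h1
    exact_mod_cast h1
  have hlow : Tendsto (fun n : ℕ => 1 - 4 * (n : ℝ) ^ 4 * (2 : ℝ) ^ ((8 - (n : ℝ)) / 24)) atTop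
      (𝓝 1) := by
    simpa using bound_tendsto.const_sub 1
  refine tendsto_of_tendsto_of_tendsto_of_le_of_le' hlow tendsto_const_nhds ?_ ?_
  · filter_upwards [eventually_ge_atTop 4] with n hn
    rw [le_div_iff₀ (hpos n)]
    have h1 := not_good_le hn
    have h2 := hsum n
    linarith
  · filter_upwards with n
    rw [div_le_one (hpos n)]
    have h2 := hsum n
    have h3 : (0 : ℝ) ≤ Nat.card {c : SwClass (Fin n) // ¬ Good c} := Nat.cast_nonneg _
    linarith

end Pool.Agent.Results.MP_87adae_co.AlmostAllClasses
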