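import Pool.Agent.Helper62.SW.Det

/-!
# The set of switching classes
-/

set_option autoImplicit false

namespace Pool.Agent.Helper62.SW

/-- Switching equivalence as an equivalence relation on the graphs with vertex set `V`. -/
def swSetoid (V : Type*) : Setoid (SimpleGraph V) where
  r := SwEq
  iseqv := ⟨SwEq.refl, SwEq.symm, SwEq.trans⟩

/-- The (finite) set of switching equivalence classes of graphs with vertex set `V`. -/
abbrev SwClass (V : Type*) : Type _ := Quotient (swSetoid V)

end Pool.Agent.Helper62.SW
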