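import Pool.Agent.Helper62.SW.Det

/-!
# Almost all graphs are rigid: counting
-/

set_option autoImplicit false

namespace Pool.Agent.Helper62.SW

variable {V : Type*}

/-- `φ` preserves the two-graph of `G` off `u, w` -/
def Pres (u w : V) (φ : V → V) (G : SimpleGraph V) : Prop :=
  ∀ x ∈ ({u, w} : Set V)ᶜ, ∀ y ∈ ({u, w} : Set V)ᶜ, ∀ z ∈ ({u, w} : Set V)ᶜ,
      tr G (φ x) (φ y) (φ z) = tr G x y z

/-- the graph with edges the pairs of `S` -/
def ofPairs (S : Finset (V × V)) : SimpleGraph V := SimpleGraph.fromRel fun a b => (a, b) ∈ S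

theorem ad_ofPairs_eq_zero {S : Finset (V × V)} {a b : V} (h1 : (a, b) ∉ S) (h2 : (b, a) ∉ S) :
    ad (ofPairs S) a b = 0 := by
  rw [ad_eq_zero, ofPairs, SimpleGraph.fromRel_adj]
  rintro ⟨-, h | h⟩
  · exact h1 h
  · exact h2 h

section

variable [Fintype V] [DecidableEq V]

theorem toggle_bound {u w z0 : V} {φ : V → V} {M Y : Finset V} (hz0 : z0 ∈ ({u, w} : Set V)ᶜ)
    (hM : ∀ x ∈ M, x ∈ ({u, w} : Set V)ᶜ) (hY : ∀ y ∈ Y, y ∈ ({u, w} : Set V)ᶜ)
    (hz0M : z0 ∉ M) (hφz0 : φ z0 ∉ M) (hφM : ∀ x ∈ M, φ x ∉ M)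
    (hYM : ∀ y ∈ Y, y ∉ M ∧ φ y ∉ M ∧ y ≠ z0) :
    Set.ncard {G : SimpleGraph V | Pres u w φ G} * 2 ^ (M.card * Y.card) ≤
      Nat.card (SimpleGraph V) := by
  classical
  let α := {G : SimpleGraph V // Pres u w φ G} × {S : Finset (V × V) // S ∈ (M ×ˢ Y).powerset}
  let F : α → SimpleGraph V := fun p => symmDiff p.1.1 (ofPairs p.2.1)
  have hout : ∀ S ∈ (M ×ˢ Y).powerset, ∀ a b, a ∉ M → b ∉ M → ad (ofPairs S) a b = 0 := by
    intro S hS a b ha hb
    rw [Finset.mem_powerset] at hS
    apply ad_ofPairs_eq_zero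
    · intro h
      exact ha (Finset.mem_product.1 (hS h)).1
    · intro h
      exact hb (Finset.mem_product.1 (hS h)).1
  have hout' : ∀ S ∈ (M ×ˢ Y).powerset, ∀ a b, a ∉ Y → b ∉ Y → ad (ofPairs S) a b = 0 := by
    intro S hS a b ha hb
    rw [Finset.mem_powerset] at hS
    apply ad_ofPairs_eq_zero
    · intro h
      exact hb (Finset.mem_product.1 (hS h)).2
    · intro h
      exact ha (Finset.mem_product.1 (hS h)).2
  have hinj : Function.Injective F := by
    rintro ⟨⟨G, hG⟩, ⟨S, hS⟩⟩ ⟨⟨G', hG'⟩, ⟨S', hS'⟩⟩ h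
    have hF : ∀ a b, ad G a b + ad (ofPairs S) a b = ad G' a b + ad (ofPairs S') a b := by
      intro a b
      rw [← ad_symmDiff, ← ad_symmDiff]
      exact congrArg (fun K => ad K a b) h
    have hz0Y : z0 ∉ Y := fun h => (hYM z0 h).2.2 rfl
    -- the two graphs agree at pairs off `M`
    have h1 : ∀ a b, a ∉ M → b ∉ M → ad G a b = ad G' a b := by
      intro a b ha hb
      have := hF a b
      rwa [hout S hS a b ha hb, hout S' hS' a b ha hb, add_zero, add_zero] at this
    have h1' : ∀ a b, a ∉ Y → b ∉ Y → ad G a b = ad G' a b := by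
      intro a b ha hb
      have := hF a b
      rwa [hout' S hS a b ha hb, hout' S' hS' a b ha hb, add_zero, add_zero] at this
    have hMY : ∀ x ∈ M, x ∉ Y := fun x hx h => (hYM x h).1 hx
    -- the two graphs agree at the pairs of `M × Y`
    have h2 : ∀ x ∈ M, ∀ y ∈ Y, ad G x y = ad G' x y := by
      intro x hx y hy
      have e1 := hG x (hM x hx) y (hY y hy) z0 hz0
      have e2 := hG' x (hM x hx) y (hY y hy) z0 hz0
      unfold tr at e1 e2
      have f1 := h1 (φ x) (φ y) (hφM x hx) (hYM y hy).2.1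
      have f2 := h1 (φ y) (φ z0) (hYM y hy).2.1 hφz0
      have f3 := h1 (φ x) (φ z0) (hφM x hx) hφz0
      have f4 := h1 y z0 (hYM y hy).1 hz0M
      have f5 := h1' x z0 (hMY x hx) hz0Y
      linear_combination - e1 + e2 + f1 + f2 + f3 - f4 - f5
    have h3 : G = G' := by
      apply graph_ext
      intro a b
      by_cases ha : a ∈ M
      · by_cases hb : b ∈ Y
        · exact h2 a ha b hb
        · exact h1' a b (hMY a ha) hb
      · by_cases hb : b ∈ M
        · by_cases ha' : a ∈ Y
          · rw [ad_comm G, ad_comm G']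
            exact h2 b hb a ha'
          · exact h1' a b ha' (hMY b hb)
        · exact h1 a b ha hb
    subst h3
    have h4 : S = S' := by
      have hsub : ∀ T ∈ (M ×ˢ Y).powerset, ∀ x y, (x, y) ∈ T ↔
          (x ∈ M ∧ y ∈ Y ∧ ad (ofPairs T) x y = 1) := by
        intro T hT x y
        rw [Finset.mem_powerset] at hT
        rw [ad_eq_one, ofPairs, SimpleGraph.fromRel_adj]
        constructor
        · intro hxy
          have h5 := Finset.mem_product.1 (hT hxy)
          refine ⟨h5.1, h5.2, ?_, Or.inl hxy⟩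
          rintro rfl
          exact hMY x h5.1 h5.2
        · rintro ⟨hx, hy, -, hxy | hyx⟩
          · exact hxy
          · exact (hMY y (Finset.mem_product.1 (hT hyx)).1 hy).elim
      ext ⟨x, y⟩
      rw [hsub S hS, hsub S' hS', add_left_cancel (hF x y)]
    subst h4
    rfl
  have hcard : Nat.card α = Set.ncard {G : SimpleGraph V | Pres u w φ G} * 2 ^ (M.card * Y.card) := by
    rw [Nat.card_prod]
    congr 1
    rw [Nat.card_eq_fintype_card, Fintype.card_coe, Finset.card_powerset, Finset.card_product]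
  rw [← hcard]
  exact Nat.card_le_card_of_injective F hinj

theorem exists_independent (φ : V → V) (M0 : Finset V) (hφ : Set.InjOn φ M0)
    (hne : ∀ x ∈ M0, φ x ≠ x) :
    ∃ M1 ⊆ M0, (∀ x ∈ M1, φ x ∉ M1) ∧ M0.card ≤ 3 * M1.card := by
  classical
  obtain ⟨M1, hM1, hmax⟩ := Finset.exists_max_image
    (M0.powerset.filter fun M => ∀ x ∈ M, φ x ∉ M) Finset.card
    ⟨∅, by simp⟩
  rw [Finset.mem_filter, Finset.mem_powerset] at hM1
  refine ⟨M1, hM1.1, hM1.2, ?_⟩
  have hsub : M0 ⊆ M1 ∪ (M1.image φ ∪ M0.filter fun x => φ x ∈ M1) := by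
    intro y hy
    by_contra hcon
    simp only [Finset.mem_union, Finset.mem_image, Finset.mem_filter, not_or, not_exists,
      not_and] at hcon
    obtain ⟨h1, h2, h3⟩ := hcon
    have h4 : insert y M1 ∈ M0.powerset.filter fun M => ∀ x ∈ M, φ x ∉ M := by
      rw [Finset.mem_filter, Finset.mem_powerset]
      refine ⟨Finset.insert_subset hy hM1.1, ?_⟩
      intro x hx hx'
      rw [Finset.mem_insert] at hx hx'
      rcases hx with rfl | hx
      · rcases hx' with h | h
        · exact hne x hy h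
        · exact h3 hy h
      · rcases hx' with h | h
        · exact h2 x hx h
        · exact hM1.2 x hx h
    have h5 := hmax _ h4
    rw [Finset.card_insert_of_notMem h1] at h5
    omega
  have h1 := Finset.card_le_card hsub
  have h2 := Finset.card_union_le M1 (M1.image φ ∪ M0.filter fun x => φ x ∈ M1)
  have h3 := Finset.card_union_le (M1.image φ) (M0.filter fun x => φ x ∈ M1)
  have h4 : (M1.image φ).card ≤ M1.card := Finset.card_image_le
  have h5 : (M0.filter fun x => φ x ∈ M1).card ≤ M1.card := by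
    apply Finset.card_le_card_of_injOn φ
    · intro x hx
      simp only [Finset.coe_filter, Set.mem_ofPred_eq] at hx
      exact hx.2
    · intro x hx y hy hxy
      simp only [Finset.coe_filter, Set.mem_ofPred_eq] at hx hy
      exact hφ hx.1 hy.1 hxy
  omega

end

end Pool.Agent.Helper62.SW
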