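import Mathlib

/-!
# Switching classes of graphs and their decks: definitions
-/

set_option autoImplicit false

namespace Pool.Agent.Helper62.SW

variable {V W : Type*}

/-- The graph `X` switched on the set `τ`: the pairs with exactly one end in `τ` are
complemented, all other pairs are unchanged. -/
def switch (X : SimpleGraph V) (τ : Set V) : SimpleGraph V where
  Adj u w := u ≠ w ∧ (X.Adj u w ↔ (u ∈ τ ↔ w ∈ τ))
  symm := ⟨fun u w h => ⟨h.1.symm, by rw [X.adj_comm, h.2]; exact Iff.comm⟩⟩
  loopless := ⟨fun u h => h.1 rfl⟩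

/-- `Y` is isomorphic to `X` switched on some set, that is, `Y` lies in the class `[[X]]`. -/
def SwEq (X : SimpleGraph V) (Y : SimpleGraph W) : Prop :=
  ∃ τ : Set V, Nonempty (Y ≃g switch X τ)

/-- The card `G - v`. -/
def card (G : SimpleGraph V) (v : V) : SimpleGraph {w : V // w ≠ v} :=
  G.comap Subtype.val

/-- `𝒟(G) ∼ 𝒟(H)`: the cards of `G` and `H` can be matched so that matched cards are switching
equivalent. -/
def DeckEq (G : SimpleGraph V) (H : SimpleGraph W) : Prop :=
  ∃ π : V ≃ W, ∀ v, SwEq (card G v) (card H (π v))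

/-- The class `[[H]]` is reconstructible. -/
def Reconstructible {n : ℕ} (H : SimpleGraph (Fin n)) : Prop :=
  ∀ G : SimpleGraph (Fin n), DeckEq G H → SwEq H G

end Pool.Agent.Helper62.SW
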