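import Pool.Agent.Helper62.SW.Two

/-!
# Reconstruction of the switching class of a rigid graph
-/

set_option autoImplicit false

namespace Pool.Agent.Helper62.SW

variable {V W U : Type*}

theorem SwEq.symm {G : SimpleGraph V} {H : SimpleGraph W} (h : SwEq G H) : SwEq H G := by
  rw [swEq_iff] at h ⊢
  obtain ⟨e, he⟩ := h
  refine ⟨e.symm, fun x y z => ?_⟩
  rw [← he, e.apply_symm_apply, e.apply_symm_apply, e.apply_symm_apply]

theorem SwEq.refl (G : SimpleGraph V) : SwEq G G := by
  rw [swEq_iff]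
  exact ⟨Equiv.refl V, fun x y z => rfl⟩

theorem SwEq.trans {G : SimpleGraph V} {H : SimpleGraph W} {K : SimpleGraph U} (h : SwEq G H)
    (h' : SwEq H K) : SwEq G K := by
  rw [swEq_iff] at h h' ⊢
  obtain ⟨e, he⟩ := h
  obtain ⟨e', he'⟩ := h'
  exact ⟨e.trans e', fun x y z => by simp [he, he']⟩

theorem tr_card (G : SimpleGraph V) (u : V) (x y z : {w : V // w ≠ u}) :
    tr (card G u) x y z = tr G x.1 y.1 z.1 := rfl

theorem card_map {G : SimpleGraph V} {H : SimpleGraph W} {u : V} {v : W}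
    (h : SwEq (card G u) (card H v)) : ∃ f : V ≃ W, f u = v ∧
      ∀ x y z, x ≠ u → y ≠ u → z ≠ u → tr H (f x) (f y) (f z) = tr G x y z := by
  classical
  rw [swEq_iff] at h
  obtain ⟨e, he⟩ := h
  let f : V ≃ W :=
    { toFun := fun x => if h : x = u then v else (e ⟨x, h⟩).1
      invFun := fun y => if h : y = v then u else (e.symm ⟨y, h⟩).1
      left_inv := by
        intro x
        by_cases hx : x = u
        · simp [hx]
        · have h1 : (e ⟨x, hx⟩).1 ≠ v := (e ⟨x, hx⟩).2
          simp [hx, h1]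
      right_inv := by
        intro y
        by_cases hy : y = v
        · simp [hy]
        · have h1 : (e.symm ⟨y, hy⟩).1 ≠ u := (e.symm ⟨y, hy⟩).2
          simp [hy, h1] }
  refine ⟨f, by simp [f], fun x y z hx hy hz => ?_⟩
  have h1 := he ⟨x, hx⟩ ⟨y, hy⟩ ⟨z, hz⟩
  rw [tr_card, tr_card] at h1
  simp only [f, Equiv.coe_fn_mk, dif_neg hx, dif_neg hy, dif_neg hz]
  exact h1

/-- Every injective map defined off two points which preserves the two-graph is the identity. -/
def Rigid2 (G : SimpleGraph V) : Prop :=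
  ∀ u w : V, ∀ φ : V → V, Set.InjOn φ ({u, w} : Set V)ᶜ →
    (∀ x ∈ ({u, w} : Set V)ᶜ, ∀ y ∈ ({u, w} : Set V)ᶜ, ∀ z ∈ ({u, w} : Set V)ᶜ,
      tr G (φ x) (φ y) (φ z) = tr G x y z) →
    ∀ x ∈ ({u, w} : Set V)ᶜ, φ x = x

theorem Rigid2.glue {G : SimpleGraph V} (hG : Rigid2 G) {H : SimpleGraph W} {u u' : V} {v v' : W}
    (huu : u ≠ u') {f f' : V ≃ W} (hf : f u = v) (hf' : f' u' = v')
    (h : ∀ x y z, x ≠ u → y ≠ u → z ≠ u → tr H (f x) (f y) (f z) = tr G x y z)
    (h' : ∀ x y z, x ≠ u' → y ≠ u' → z ≠ u' → tr H (f' x) (f' y) (f' z) = tr G x y z) :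
    f u' = v' ∧ ∀ x, x ≠ u → x ≠ u' → f x = f' x := by
  have key : ∀ x ∈ ({u, f.symm v'} : Set V)ᶜ, f'.symm (f x) = x := by
    refine hG u (f.symm v') (fun x => f'.symm (f x)) ?_ ?_
    · intro x _ y _ hxy
      exact f.injective (f'.symm.injective hxy)
    · intro x hx y hy z hz
      simp only [Set.mem_compl_iff, Set.mem_insert_iff, Set.mem_singleton_iff, not_or] at hx hy hz
      have h0 : ∀ x, x ≠ f.symm v' → f'.symm (f x) ≠ u' := by
        intro x hx h1
        apply hx
        rw [Equiv.symm_apply_eq] at h1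
        rw [Equiv.eq_symm_apply, h1, hf']
      rw [← h' _ _ _ (h0 x hx.2) (h0 y hy.2) (h0 z hz.2)]
      simp only [Equiv.apply_symm_apply]
      exact h x y z hx.1 hy.1 hz.1
  have h1 : u' = f.symm v' := by
    by_contra hne
    have h2 := key u' (by simp [huu.symm, hne])
    rw [Equiv.symm_apply_eq, hf'] at h2
    exact hne (by rw [Equiv.eq_symm_apply, h2])
  have h2 : f u' = v' := by rw [h1, Equiv.apply_symm_apply]
  refine ⟨h2, fun x hx hx' => ?_⟩
  have h3 := key x (by rw [← h1]; simp [hx, hx'])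
  rw [Equiv.symm_apply_eq] at h3
  exact h3

theorem pair3 {u : Fin 3 → V} (hu : Function.Injective u) (x y : V) : ∃ i, x ≠ u i ∧ y ≠ u i := by
  by_contra hcon
  push Not at hcon
  have h0 := hcon 0
  have h1 := hcon 1
  have h2 := hcon 2
  have h01 : u 0 ≠ u 1 := fun h => absurd (hu h) (by decide)
  have h02 : u 0 ≠ u 2 := fun h => absurd (hu h) (by decide)
  have h12 : u 1 ≠ u 2 := fun h => absurd (hu h) (by decide)
  by_cases hx0 : x = u 0
  · have hx1 : x ≠ u 1 := by rw [hx0]; exact h01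
    have hx2 : x ≠ u 2 := by rw [hx0]; exact h02
    exact h12 ((h1 hx1).symm.trans (h2 hx2))
  · have hy0 := h0 hx0
    by_cases hx1 : x = u 1
    · have hx2 : x ≠ u 2 := by rw [hx1]; exact h12
      exact h02 (hy0.symm.trans (h2 hx2))
    · exact h01 (hy0.symm.trans (h1 hx1))

/-- Any three cards determine the switching class of a rigid graph. -/
theorem Rigid2.three {G : SimpleGraph V} (hG : Rigid2 G) (H : SimpleGraph W) {u : Fin 3 → V}
    (hu : Function.Injective u) (ht : ∃ t, ∀ i, t ≠ u i) (v : Fin 3 → W)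
    (h : ∀ i, SwEq (card G (u i)) (card H (v i))) : SwEq G H := by
  choose f hf hT using fun i => card_map (h i)
  have hglue : ∀ i j, i ≠ j → f i (u j) = v j ∧ ∀ x, x ≠ u i → x ≠ u j → f i x = f j x :=
    fun i j hij => hG.glue (fun h => hij (hu h)) (hf i) (hf j) (hT i) (hT j)
  have hval : ∀ i j, f i (u j) = v j := by
    intro i j
    by_cases hij : i = j
    · subst hij; exact hf i
    · exact (hglue i j hij).1
  have heq : ∀ i x, f i x = f 0 x := by
    intro i x
    by_cases hi : i = 0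
    · rw [hi]
    by_cases hx : ∃ j, x = u j
    · obtain ⟨j, rfl⟩ := hx
      rw [hval, hval]
    · push Not at hx
      exact (hglue i 0 hi).2 x (hx _) (hx _)
  obtain ⟨t, ht⟩ := ht
  have hgood : ∀ x y, tr H (f 0 x) (f 0 y) (f 0 t) = tr G x y t := by
    intro x y
    obtain ⟨i, hx, hy⟩ := pair3 hu x y
    rw [← heq i x, ← heq i y, ← heq i t]
    exact hT i x y t hx hy (ht i)
  rw [swEq_iff]
  refine ⟨f 0, fun x y z => ?_⟩
  rw [four H _ _ _ (f 0 t), four G x y z t, hgood, hgood, hgood]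

theorem ad_symmDiff (G F : SimpleGraph V) (x y : V) : ad (symmDiff G F) x y = ad G x y + ad F x y := by
  unfold ad
  have h : (symmDiff G F).Adj x y ↔ (G.Adj x y ∧ ¬ F.Adj x y) ∨ (F.Adj x y ∧ ¬ G.Adj x y) := by
    rw [symmDiff_def]
    simp [SimpleGraph.sup_adj, SimpleGraph.sdiff_adj]
  by_cases h1 : G.Adj x y <;> by_cases h2 : F.Adj x y <;> simp [h, h1, h2] <;> decide

/-- Two cards do not determine the switching class of a rigid graph. -/
theorem Rigid2.two {G : SimpleGraph V} (hG : Rigid2 G) {u v : V} (huv : u ≠ v)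
    (ht : ∃ t, t ≠ u ∧ t ≠ v) : ∃ H : SimpleGraph V, SwEq (card G u) (card H u) ∧
      SwEq (card G v) (card H v) ∧ ¬ SwEq G H := by
  classical
  let F : SimpleGraph V := SimpleGraph.edge u v
  have hF : ∀ x y, x ≠ u → y ≠ u → ad F x y = 0 := by
    intro x y hx hy
    rw [ad_eq_zero, SimpleGraph.edge_adj]
    rintro ⟨h | h, -⟩
    · exact hx h.1
    · exact hy h.2
  have hF' : ∀ x y, x ≠ v → y ≠ v → ad F x y = 0 := by
    intro x y hx hy
    rw [ad_eq_zero, SimpleGraph.edge_adj]
    rintro ⟨h | h, -⟩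
    · exact hy h.2
    · exact hx h.1
  refine ⟨symmDiff G F, ?_, ?_, ?_⟩
  · have h1 : card (symmDiff G F) u = card G u := by
      apply graph_ext
      intro x y
      change ad (symmDiff G F) x.1 y.1 = ad G x.1 y.1
      rw [ad_symmDiff, hF _ _ x.2 y.2, add_zero]
    rw [h1]
    exact SwEq.refl _
  · have h1 : card (symmDiff G F) v = card G v := by
      apply graph_ext
      intro x y
      change ad (symmDiff G F) x.1 y.1 = ad G x.1 y.1
      rw [ad_symmDiff, hF' _ _ x.2 y.2, add_zero]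
    rw [h1]
    exact SwEq.refl _
  · intro hS
    rw [swEq_iff] at hS
    obtain ⟨e, he⟩ := hS
    have key : ∀ x, x ≠ e.symm u → e x = x := by
      intro x hx
      have h0 : ∀ x, x ≠ e.symm u → e x ≠ u := by
        intro x hx h1
        exact hx (by rw [Equiv.eq_symm_apply, h1])
      refine hG (e.symm u) (e.symm u) e e.injective.injOn ?_ x (by simp [hx])
      intro a ha b hb c hc
      simp only [Set.mem_compl_iff, Set.mem_insert_iff, Set.mem_singleton_iff, not_or] at ha hb hc
      rw [← he a b c]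
      unfold tr
      rw [ad_symmDiff, ad_symmDiff, ad_symmDiff, hF _ _ (h0 a ha.1) (h0 b hb.1),
        hF _ _ (h0 b hb.1) (h0 c hc.1), hF _ _ (h0 a ha.1) (h0 c hc.1), add_zero, add_zero,
        add_zero]
    have hu : e.symm u = u := by
      by_contra hne
      have h1 := key u (fun h => hne h.symm)
      exact hne (by rw [Equiv.symm_apply_eq, h1])
    have hid : ∀ x, e x = x := by
      intro x
      by_cases hx : x = u
      · rw [hx, ← Equiv.eq_symm_apply, hu]
      · exact key x (by rw [hu]; exact hx)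
    obtain ⟨t, ht1, ht2⟩ := ht
    have h1 := he u v t
    rw [hid, hid, hid] at h1
    unfold tr at h1
    rw [ad_symmDiff, ad_symmDiff, ad_symmDiff, hF' u t huv ht2, hF v t huv.symm ht1] at h1
    have h2 : ad F u v = 1 := by
      rw [ad_eq_one, SimpleGraph.edge_adj]
      exact ⟨Or.inl ⟨rfl, rfl⟩, huv⟩
    rw [h2] at h1
    have h3 : (1 : ZMod 2) = 0 := by linear_combination h1
    exact absurd h3 (by decide)

end Pool.Agent.Helper62.SW
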