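import Pool.Agent.Helper62.SW.Union

/-!
# Almost all graphs are rigid
-/

set_option autoImplicit false

namespace Pool.Agent.Helper62.SW

variable {V : Type*} [Fintype V] [DecidableEq V]

/-- the decay parameter -/
noncomputable def del (n : ℕ) : ℝ := (2 : ℝ) ^ (-((n - 8 : ℕ) : ℝ) / 24)

theorem del_pos (n : ℕ) : 0 < del n := by
  unfold del
  positivity

theorem sum_maps_ne (δ : ℝ) : ∑ φ ∈ (Finset.univ : Finset (V → V)).erase id,
    ∏ x, (if φ x = x then 1 else δ) = (1 + (Fintype.card V - 1) * δ) ^ Fintype.card V - 1 := by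
  rw [← sum_maps (V := V) δ, ← Finset.add_sum_erase _ _ (Finset.mem_univ (id : V → V))]
  simp

theorem prod_nonneg_del (φ : V → V) (n : ℕ) : 0 ≤ ∏ x, (if φ x = x then 1 else del n) := by
  apply Finset.prod_nonneg
  intro x _
  split_ifs
  · norm_num
  · exact (del_pos n).le

/-- the normalised maps -/
noncomputable def maps (V : Type*) [Fintype V] : Finset (V × V × (V → V)) :=
  (Set.toFinite {p : V × V × (V → V) | p.2.2 ≠ id ∧ Set.InjOn p.2.2 ({p.1, p.2.1} : Set V)ᶜ ∧
    p.2.2 p.1 = p.1 ∧ p.2.2 p.2.1 = p.2.1}).toFinset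

omit [DecidableEq V] in
theorem mem_maps {p : V × V × (V → V)} : p ∈ maps V ↔ p.2.2 ≠ id ∧
    Set.InjOn p.2.2 ({p.1, p.2.1} : Set V)ᶜ ∧ p.2.2 p.1 = p.1 ∧ p.2.2 p.2.1 = p.2.1 := by
  unfold maps
  rw [Set.Finite.mem_toFinset]
  exact Iff.rfl

/-- if the two-graph has a nontrivial partial automorphism, it has a normalised one -/
theorem not_rigid_sub : {G : SimpleGraph V | ¬ Rigid2 G} ⊆
    ⋃ p ∈ maps V, {G : SimpleGraph V | Pres p.1 p.2.1 p.2.2 G} := by
  intro G hG
  simp only [Set.mem_ofPred_eq, Rigid2] at hG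
  push Not at hG
  obtain ⟨u, w, φ, hinj, hT, x, hx, hne⟩ := hG
  have hout : ∀ y ∈ ({u, w} : Set V)ᶜ, (if y = u ∨ y = w then y else φ y) = φ y := by
    intro y hy
    simp only [Set.mem_compl_iff, Set.mem_insert_iff, Set.mem_singleton_iff] at hy
    rw [if_neg hy]
  rw [Set.mem_iUnion₂]
  refine ⟨(u, w, fun y => if y = u ∨ y = w then y else φ y), ?_, ?_⟩
  · rw [mem_maps]
    refine ⟨?_, ?_, ?_, ?_⟩
    · intro h
      apply hne
      have h1 := congrFun h x
      simp only [id] at h1
      rwa [hout x hx] at h1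
    · intro a ha b hb hab
      simp only at hab
      rw [hout a ha, hout b hb] at hab
      exact hinj ha hb hab
    · simp
    · simp
  · intro a ha b hb c hc
    simp only
    rw [hout a ha, hout b hb, hout c hc]
    exact hT a ha b hb c hc

theorem card_not_rigid : (Set.ncard {G : SimpleGraph V | ¬ Rigid2 G} : ℝ) ≤
    Nat.card (SimpleGraph V) * ((Fintype.card V : ℝ) ^ 2 *
      ((1 + (Fintype.card V - 1) * del (Fintype.card V)) ^ Fintype.card V - 1)) := by
  classical
  set n := Fintype.card V with hn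
  set S := maps V with hS
  have h1 : Set.ncard {G : SimpleGraph V | ¬ Rigid2 G} ≤
      ∑ p ∈ S, Set.ncard {G : SimpleGraph V | Pres p.1 p.2.1 p.2.2 G} :=
    (Set.ncard_le_ncard not_rigid_sub (Set.toFinite _)).trans (Finset.set_ncard_biUnion_le _ _)
  have h2 : (Set.ncard {G : SimpleGraph V | ¬ Rigid2 G} : ℝ) ≤
      ∑ p ∈ S, (Set.ncard {G : SimpleGraph V | Pres p.1 p.2.1 p.2.2 G} : ℝ) := by
    exact_mod_cast h1
  have h3 : ∑ p ∈ S, (Set.ncard {G : SimpleGraph V | Pres p.1 p.2.1 p.2.2 G} : ℝ) ≤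
      ∑ p ∈ S, (Nat.card (SimpleGraph V) : ℝ) * ∏ x, (if p.2.2 x = x then 1 else del n) := by
    apply Finset.sum_le_sum
    intro p hp
    rw [hS, mem_maps] at hp
    exact pres_bound_real hp.2.1 hp.2.2.1 hp.2.2.2 rfl
  have h4 : ∑ p ∈ S, (Nat.card (SimpleGraph V) : ℝ) * ∏ x, (if p.2.2 x = x then 1 else del n) ≤
      ∑ p ∈ (Finset.univ : Finset V) ×ˢ ((Finset.univ : Finset V) ×ˢ
        (Finset.univ : Finset (V → V)).erase id),
        (Nat.card (SimpleGraph V) : ℝ) * ∏ x, (if p.2.2 x = x then 1 else del n) := by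
    apply Finset.sum_le_sum_of_subset_of_nonneg
    · intro p hp
      rw [hS, mem_maps] at hp
      rw [Finset.mem_product, Finset.mem_product, Finset.mem_erase]
      exact ⟨Finset.mem_univ _, Finset.mem_univ _, hp.1, Finset.mem_univ _⟩
    · intro p _ _
      exact mul_nonneg (Nat.cast_nonneg _) (prod_nonneg_del _ _)
  have h5 : ∑ p ∈ (Finset.univ : Finset V) ×ˢ ((Finset.univ : Finset V) ×ˢ
        (Finset.univ : Finset (V → V)).erase id),
        (Nat.card (SimpleGraph V) : ℝ) * ∏ x, (if p.2.2 x = x then 1 else del n) =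
      Nat.card (SimpleGraph V) * ((n : ℝ) ^ 2 * ((1 + (n - 1) * del n) ^ n - 1)) := by
    simp only [Finset.sum_product, ← Finset.mul_sum, sum_maps_ne, Finset.sum_const,
      Finset.card_univ, nsmul_eq_mul, ← hn]
    ring
  linarith

/-- bound for the automorphisms -/
theorem card_aut : (∑ π ∈ (Finset.univ : Finset (Equiv.Perm V)).erase 1,
    (Set.ncard {G : SimpleGraph V | ∀ x y z, tr G (π x) (π y) (π z) = tr G x y z} : ℝ)) ≤
    Nat.card (SimpleGraph V) * ((Fintype.card V : ℝ) *
      ((1 + (Fintype.card V - 1) * del (Fintype.card V)) ^ Fintype.card V - 1)) := by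
  classical
  set n := Fintype.card V with hn
  have hmv : ∀ π ∈ (Finset.univ : Finset (Equiv.Perm V)).erase 1, ∃ x, π x ≠ x := by
    intro π hπ
    by_contra hcon
    push Not at hcon
    exact (Finset.mem_erase.1 hπ).1 (Equiv.ext hcon)
  rcases isEmpty_or_nonempty V with hV | hV
  · have h0 : (Finset.univ : Finset (Equiv.Perm V)).erase 1 = ∅ := by
      apply Finset.eq_empty_of_forall_notMem
      intro π hπ
      obtain ⟨x, -⟩ := hmv π hπ
      exact hV.false x
    rw [h0, Finset.sum_empty, hn, Fintype.card_eq_zero]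
    simp
  choose! x0 hx0 using hmv
  let ψ : Equiv.Perm V → V × (V → V) := fun π => (x0 π, Function.update π (x0 π) (x0 π))
  have hψ : Set.InjOn ψ ((Finset.univ : Finset (Equiv.Perm V)).erase 1) := by
    intro π hπ π' hπ' h
    simp only [ψ, Prod.mk.injEq] at h
    obtain ⟨h1, h2⟩ := h
    rw [← h1] at h2
    have h3 : ∀ y, y ≠ x0 π → π y = π' y := by
      intro y hy
      have := congrFun h2 y
      rwa [Function.update_of_ne hy, Function.update_of_ne hy] at this
    apply Equiv.ext
    intro y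
    by_cases hy : y = x0 π
    · rw [hy]
      by_contra hne
      -- the value `π' (x0 π)` is `π z` for some `z ≠ x0 π`
      obtain ⟨z, hz⟩ := π.surjective (π' (x0 π))
      have hz' : z ≠ x0 π := by
        rintro rfl
        exact hne hz
      have := h3 z hz'
      rw [hz] at this
      exact hz' (π'.injective this.symm)
    · exact h3 y hy
  have hbd : ∀ π ∈ (Finset.univ : Finset (Equiv.Perm V)).erase 1,
      (Set.ncard {G : SimpleGraph V | ∀ x y z, tr G (π x) (π y) (π z) = tr G x y z} : ℝ) ≤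
      (Nat.card (SimpleGraph V) : ℝ) * ∏ x, (if (ψ π).2 x = x then 1 else del n) := by
    intro π hπ
    have h1 : {G : SimpleGraph V | ∀ x y z, tr G (π x) (π y) (π z) = tr G x y z} ⊆
        {G : SimpleGraph V | Pres (x0 π) (x0 π) (ψ π).2 G} := by
      intro G hG a ha b hb c hc
      simp only [Set.mem_compl_iff, Set.mem_insert_iff, Set.mem_singleton_iff, or_self] at ha hb hc
      simp only [ψ]
      rw [Function.update_of_ne ha, Function.update_of_ne hb, Function.update_of_ne hc]
      exact hG a b c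
    have h2 : (Set.ncard {G : SimpleGraph V | ∀ x y z, tr G (π x) (π y) (π z) = tr G x y z} : ℝ) ≤
        Set.ncard {G : SimpleGraph V | Pres (x0 π) (x0 π) (ψ π).2 G} := by
      exact_mod_cast Set.ncard_le_ncard h1 (Set.toFinite _)
    refine h2.trans (pres_bound_real ?_ ?_ ?_ rfl)
    · intro a ha b hb hab
      simp only [Set.mem_compl_iff, Set.mem_insert_iff, Set.mem_singleton_iff, or_self] at ha hb
      simp only [ψ] at hab
      rw [Function.update_of_ne ha, Function.update_of_ne hb] at hab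
      exact π.injective hab
    · simp [ψ]
    · simp [ψ]
  have hsum := Finset.sum_le_sum hbd
  have himg : ∑ π ∈ (Finset.univ : Finset (Equiv.Perm V)).erase 1,
      (Nat.card (SimpleGraph V) : ℝ) * ∏ x, (if (ψ π).2 x = x then 1 else del n) =
      ∑ p ∈ ((Finset.univ : Finset (Equiv.Perm V)).erase 1).image ψ,
        (Nat.card (SimpleGraph V) : ℝ) * ∏ x, (if p.2 x = x then 1 else del n) := by
    rw [Finset.sum_image hψ]
  have hle : ∑ p ∈ ((Finset.univ : Finset (Equiv.Perm V)).erase 1).image ψ,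
        (Nat.card (SimpleGraph V) : ℝ) * ∏ x, (if p.2 x = x then 1 else del n) ≤
      ∑ p ∈ (Finset.univ : Finset V) ×ˢ (Finset.univ : Finset (V → V)).erase id,
        (Nat.card (SimpleGraph V) : ℝ) * ∏ x, (if p.2 x = x then 1 else del n) := by
    apply Finset.sum_le_sum_of_subset_of_nonneg
    · intro p hp
      obtain ⟨π, hπ, rfl⟩ := Finset.mem_image.1 hp
      rw [Finset.mem_product, Finset.mem_erase]
      refine ⟨Finset.mem_univ _, ?_, Finset.mem_univ _⟩
      intro hid
      -- all points except `x0 π` are fixed, so `x0 π` is fixed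
      have h1 : ∀ y, y ≠ x0 π → π y = y := by
        intro y hy
        have := congrFun hid y
        simp only [ψ, id] at this
        rwa [Function.update_of_ne hy] at this
      apply hx0 π hπ
      by_contra hne
      have h2 := h1 (π (x0 π)) hne
      exact hne (π.injective h2)
    · intro p _ _
      exact mul_nonneg (Nat.cast_nonneg _) (prod_nonneg_del _ _)
  have h5 : ∑ p ∈ (Finset.univ : Finset V) ×ˢ (Finset.univ : Finset (V → V)).erase id,
        (Nat.card (SimpleGraph V) : ℝ) * ∏ x, (if p.2 x = x then 1 else del n) =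
      Nat.card (SimpleGraph V) * ((n : ℝ) * ((1 + (n - 1) * del n) ^ n - 1)) := by
    simp only [Finset.sum_product, ← Finset.mul_sum, sum_maps_ne, Finset.sum_const,
      Finset.card_univ, nsmul_eq_mul, ← hn]
  linarith

end Pool.Agent.Helper62.SW
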