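import Pool.Agent.Helper62.SW.ClassDefs
import Pool.Agent.Helper62.SW.Prob

/-!
# Counting switching classes
-/

set_option autoImplicit false

namespace Pool.Agent.Helper62.SW

section

variable {V : Type*}

theorem rigid2_congr {G G' : SimpleGraph V} (h : tr G = tr G') (hG : Rigid2 G) : Rigid2 G' := by
  intro u w φ hφ hT
  exact hG u w φ hφ (by rw [h]; exact hT)

theorem rigid2_comap {G : SimpleGraph V} (e : Equiv.Perm V) (hG : Rigid2 G) :
    Rigid2 (G.comap e) := by
  intro u w φ hφ hT x hx
  have hmem : ∀ y, y ∈ ({e u, e w} : Set V)ᶜ → e.symm y ∈ ({u, w} : Set V)ᶜ := by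
    intro y hy
    simp only [Set.mem_compl_iff, Set.mem_insert_iff, Set.mem_singleton_iff, not_or] at hy ⊢
    exact ⟨fun h => hy.1 (by rw [← h, e.apply_symm_apply]),
      fun h => hy.2 (by rw [← h, e.apply_symm_apply])⟩
  have h := hG (e u) (e w) (fun y => e (φ (e.symm y))) ?_ ?_ (e x) ?_
  · simpa using h
  · intro a ha b hb hab
    exact e.symm.injective (hφ (hmem a ha) (hmem b hb) (e.injective hab))
  · intro a ha b hb c hc
    have h1 := hT (e.symm a) (hmem a ha) (e.symm b) (hmem b hb) (e.symm c) (hmem c hc)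
    change tr G (e (φ (e.symm a))) (e (φ (e.symm b))) (e (φ (e.symm c))) =
      tr G (e (e.symm a)) (e (e.symm b)) (e (e.symm c)) at h1
    simpa using h1
  · simp only [Set.mem_compl_iff, Set.mem_insert_iff, Set.mem_singleton_iff, not_or] at hx ⊢
    exact ⟨fun h => hx.1 (e.injective h), fun h => hx.2 (e.injective h)⟩

theorem tr_symmDiff (G F : SimpleGraph V) (x y z : V) :
    tr (symmDiff G F) x y z = tr G x y z + tr F x y z := by
  unfold tr
  rw [ad_symmDiff, ad_symmDiff, ad_symmDiff]
  ring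

/-- switching classes with a member which is not rigid -/
def BadClass (V : Type*) : Type _ := {c : SwClass V // ∃ G, ⟦G⟧ = c ∧ ¬ Rigid2 G}

/-- two-graphs with a non-rigid member -/
def TGB (V : Type*) : Type _ := {t : V → V → V → ZMod 2 // ∃ G : SimpleGraph V, tr G = t ∧ ¬ Rigid2 G}

instance : MulAction (Equiv.Perm V) (TGB V) where
  smul π t := ⟨fun x y z => t.1 (π.symm x) (π.symm y) (π.symm z), by
    obtain ⟨G, hG, hR⟩ := t.2
    refine ⟨G.comap π.symm, ?_, ?_⟩
    · rw [← hG]; rfl
    · intro h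
      apply hR
      have h1 := rigid2_comap π h
      refine rigid2_congr ?_ h1
      funext x y z
      change tr G (π.symm (π x)) (π.symm (π y)) (π.symm (π z)) = _
      simp⟩
  one_smul t := rfl
  mul_smul π ρ t := rfl

/-- the two-graph of a non-rigid graph -/
noncomputable def mkB (G : SimpleGraph V) (h : ¬ Rigid2 G) : TGB V := ⟨tr G, G, rfl, h⟩

theorem smul_val (π : Equiv.Perm V) (t : TGB V) (x y z : V) :
    (π • t).1 x y z = t.1 (π.symm x) (π.symm y) (π.symm z) := rfl

open Classical in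
/-- a graph with a given two-graph -/
noncomputable def rep (t : V → V → V → ZMod 2) : SimpleGraph V :=
  if h : ∃ G, tr G = t then h.choose else ⊥

theorem tr_rep {t : V → V → V → ZMod 2} (h : ∃ G : SimpleGraph V, tr G = t) : tr (rep t) = t := by
  unfold rep
  rw [dif_pos h]
  exact h.choose_spec

/-- graphs with trivial two-graph -/
abbrev Ker (V : Type*) : Type _ := {K : SimpleGraph V // tr K = 0}

/-- each two-graph comes from the same number of graphs -/
noncomputable def fiberEquiv (P : (V → V → V → ZMod 2) → Prop) :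
    {G : SimpleGraph V // P (tr G)} ≃
      {t : V → V → V → ZMod 2 // (∃ G : SimpleGraph V, tr G = t) ∧ P t} × Ker V where
  toFun G := (⟨tr G.1, ⟨G.1, rfl⟩, G.2⟩, ⟨symmDiff G.1 (rep (tr G.1)), by
    funext x y z
    rw [tr_symmDiff, tr_rep ⟨G.1, rfl⟩]
    exact add_self2 _⟩)
  invFun p := ⟨symmDiff p.2.1 (rep p.1.1), by
    have h : tr (symmDiff p.2.1 (rep p.1.1)) = p.1.1 := by
      funext x y z
      rw [tr_symmDiff, tr_rep p.1.2.1, p.2.2]
      simp
    rw [h]
    exact p.1.2.2⟩
  left_inv G := by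
    apply Subtype.ext
    exact symmDiff_symmDiff_cancel_right _ _
  right_inv p := by
    have h : tr (symmDiff p.2.1 (rep p.1.1)) = p.1.1 := by
      funext x y z
      rw [tr_symmDiff, tr_rep p.1.2.1, p.2.2]
      simp
    apply Prod.ext
    · apply Subtype.ext
      exact h
    · apply Subtype.ext
      simp only
      rw [h]
      exact symmDiff_symmDiff_cancel_right _ _

theorem fiber_card (P : (V → V → V → ZMod 2) → Prop) :
    Nat.card {G : SimpleGraph V // P (tr G)} =
      Nat.card {t : V → V → V → ZMod 2 // (∃ G : SimpleGraph V, tr G = t) ∧ P t} *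
        Nat.card (Ker V) := by
  rw [Nat.card_congr (fiberEquiv P), Nat.card_prod]

end

section

variable {V : Type*} [Fintype V] [DecidableEq V]

instance : Finite (TGB V) := Subtype.finite

instance : Finite (BadClass V) := Subtype.finite

theorem ker_pos : 0 < Nat.card (Ker V) := by
  have : Nonempty (Ker V) := by
    refine ⟨⟨⊥, ?_⟩⟩
    funext x y z
    have h : ∀ x y : V, ad (⊥ : SimpleGraph V) x y = 0 := by
      intro x y
      rw [ad_eq_zero]
      simp
    unfold tr
    rw [h, h, h]
    simp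
  exact Nat.card_pos

theorem bad_le_orbits : Nat.card (BadClass V) ≤
    Nat.card (MulAction.orbitRel.Quotient (Equiv.Perm V) (TGB V)) := by
  classical
  let f : BadClass V → MulAction.orbitRel.Quotient (Equiv.Perm V) (TGB V) := fun c =>
    Quotient.mk _ (mkB c.2.choose c.2.choose_spec.2)
  refine Nat.card_le_card_of_injective f ?_
  intro c c' h
  have h1 := Quotient.exact h
  have h2 : mkB c.2.choose c.2.choose_spec.2 ∈
      MulAction.orbit (Equiv.Perm V) (mkB c'.2.choose c'.2.choose_spec.2) := h1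
  obtain ⟨π, hπ⟩ := h2
  apply Subtype.ext
  rw [← c.2.choose_spec.1, ← c'.2.choose_spec.1]
  apply Quotient.sound
  change SwEq _ _
  rw [swEq_iff]
  refine ⟨π.symm, fun x y z => ?_⟩
  have h3 := congrArg (fun t : TGB V => t.1 x y z) hπ
  exact h3

theorem fix_le (π : Equiv.Perm V) : Nat.card (MulAction.fixedBy (TGB V) π) * Nat.card (Ker V) ≤
    Set.ncard {G : SimpleGraph V | ∀ x y z, tr G (π x) (π y) (π z) = tr G x y z} := by
  classical
  have h1 := fiber_card (V := V) (fun t => ∀ x y z, t (π x) (π y) (π z) = t x y z)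
  have h2 : Nat.card (MulAction.fixedBy (TGB V) π) ≤
      Nat.card {t : V → V → V → ZMod 2 // (∃ G : SimpleGraph V, tr G = t) ∧
        ∀ x y z, t (π x) (π y) (π z) = t x y z} := by
    refine Nat.card_le_card_of_injective (fun t => ⟨t.1.1, ?_, ?_⟩) ?_
    · obtain ⟨G, hG, -⟩ := t.1.2
      exact ⟨G, hG⟩
    · intro x y z
      have h3 : π • t.1 = t.1 := t.2
      have h4 := congrArg (fun s : TGB V => s.1 (π x) (π y) (π z)) h3
      simp only [smul_val, Equiv.symm_apply_apply] at h4
      exact h4.symm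
    · intro t t' h
      apply Subtype.ext
      apply Subtype.ext
      simp only [Subtype.mk.injEq] at h
      exact h
  have h3 : Set.ncard {G : SimpleGraph V | ∀ x y z, tr G (π x) (π y) (π z) = tr G x y z} =
      Nat.card {G : SimpleGraph V // ∀ x y z, tr G (π x) (π y) (π z) = tr G x y z} := rfl
  rw [h3, h1]
  exact Nat.mul_le_mul_right _ h2

theorem fix_one_le : Nat.card (MulAction.fixedBy (TGB V) (1 : Equiv.Perm V)) *
    Nat.card (Ker V) ≤ Set.ncard {G : SimpleGraph V | ¬ Rigid2 G} := by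
  classical
  let P : (V → V → V → ZMod 2) → Prop := fun t => ∃ G : SimpleGraph V, tr G = t ∧ ¬ Rigid2 G
  have h1 := fiber_card (V := V) P
  have h2 : Nat.card (MulAction.fixedBy (TGB V) (1 : Equiv.Perm V)) ≤
      Nat.card {t : V → V → V → ZMod 2 // (∃ G : SimpleGraph V, tr G = t) ∧ P t} := by
    refine Nat.card_le_card_of_injective (fun t => ⟨t.1.1, ?_, t.1.2⟩) ?_
    · obtain ⟨G, hG, -⟩ := t.1.2
      exact ⟨G, hG⟩
    · intro t t' h
      apply Subtype.ext
      apply Subtype.ext
      simp only [Subtype.mk.injEq] at h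
      exact h
  have h3 : {G : SimpleGraph V | ¬ Rigid2 G} = {G : SimpleGraph V | P (tr G)} := by
    ext G
    constructor
    · intro h
      exact ⟨G, rfl, h⟩
    · rintro ⟨G', h, h'⟩ hG
      exact h' (rigid2_congr h.symm hG)
  have h4 : Set.ncard {G : SimpleGraph V | P (tr G)} = Nat.card {G : SimpleGraph V // P (tr G)} :=
    rfl
  rw [h3, h4, h1]
  exact Nat.mul_le_mul_right _ h2

theorem graphs_le : Nat.card (SimpleGraph V) ≤
    Nat.card (SwClass V) * Nat.card (Equiv.Perm V) * Nat.card (Ker V) := by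
  classical
  have h1 := fiber_card (V := V) (fun _ => True)
  have h2 : Nat.card {G : SimpleGraph V // True} = Nat.card (SimpleGraph V) :=
    Nat.card_congr (Equiv.subtypeUnivEquiv fun _ => trivial)
  rw [h2] at h1
  rw [h1]
  apply Nat.mul_le_mul_right
  rw [← Nat.card_prod]
  refine Nat.card_le_card_of_surjective (fun p : SwClass V × Equiv.Perm V =>
    ⟨fun x y z => tr p.1.out (p.2 x) (p.2 y) (p.2 z), ⟨p.1.out.comap p.2, rfl⟩, trivial⟩) ?_
  rintro ⟨t, ⟨G, rfl⟩, -⟩
  have h3 : SwEq G (⟦G⟧ : SwClass V).out := by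
    have := Quotient.mk_out (s := swSetoid V) G
    exact SwEq.symm this
  rw [swEq_iff] at h3
  obtain ⟨e, he⟩ := h3
  refine ⟨(⟦G⟧, e), ?_⟩
  apply Subtype.ext
  funext x y z
  exact he x y z

theorem bad_classes : (Nat.card (BadClass V) : ℝ) ≤ Nat.card (SwClass V) *
    (((Fintype.card V : ℝ) ^ 2 + Fintype.card V) *
      ((1 + (Fintype.card V - 1) * del (Fintype.card V)) ^ Fintype.card V - 1)) := by
  classical
  set n := Fintype.card V with hn
  set ε := (1 + ((n : ℝ) - 1) * del n) ^ n - 1 with hε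
  have : ∀ π : Equiv.Perm V, Fintype (MulAction.fixedBy (TGB V) π) := fun π => Fintype.ofFinite _
  have : Fintype (Quotient (MulAction.orbitRel (Equiv.Perm V) (TGB V))) := Fintype.ofFinite _
  have hburn := MulAction.sum_card_fixedBy_eq_card_orbits_mul_card_group (Equiv.Perm V) (TGB V)
  have hburn' : ∑ π : Equiv.Perm V, Nat.card (MulAction.fixedBy (TGB V) π) =
      Nat.card (MulAction.orbitRel.Quotient (Equiv.Perm V) (TGB V)) *
        Nat.card (Equiv.Perm V) := by
    rw [Nat.card_eq_fintype_card (α := Equiv.Perm V)]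
    rw [show Nat.card (MulAction.orbitRel.Quotient (Equiv.Perm V) (TGB V)) =
      Fintype.card (Quotient (MulAction.orbitRel (Equiv.Perm V) (TGB V))) from
        Nat.card_eq_fintype_card, ← hburn]
    exact Finset.sum_congr rfl fun π _ => Nat.card_eq_fintype_card
  have h1 : (Nat.card (BadClass V) : ℝ) * (Nat.card (Equiv.Perm V) * Nat.card (Ker V)) ≤
      ∑ π : Equiv.Perm V, (Nat.card (MulAction.fixedBy (TGB V) π) : ℝ) * Nat.card (Ker V) := by
    rw [← Finset.sum_mul]
    have h2 : (∑ π : Equiv.Perm V, (Nat.card (MulAction.fixedBy (TGB V) π) : ℝ)) =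
        Nat.card (MulAction.orbitRel.Quotient (Equiv.Perm V) (TGB V)) *
        Nat.card (Equiv.Perm V) := by
      exact_mod_cast hburn'
    rw [h2, ← mul_assoc]
    have h3 : (Nat.card (BadClass V) : ℝ) ≤
        Nat.card (MulAction.orbitRel.Quotient (Equiv.Perm V) (TGB V)) := by
      exact_mod_cast bad_le_orbits
    gcongr
  have h2 : ∑ π : Equiv.Perm V, (Nat.card (MulAction.fixedBy (TGB V) π) : ℝ) *
      Nat.card (Ker V) ≤ Nat.card (SimpleGraph V) * (((n : ℝ) ^ 2 + n) * ε) := by
    rw [← Finset.add_sum_erase _ _ (Finset.mem_univ (1 : Equiv.Perm V))]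
    have h3 : (Nat.card (MulAction.fixedBy (TGB V) (1 : Equiv.Perm V)) : ℝ) *
        Nat.card (Ker V) ≤ Set.ncard {G : SimpleGraph V | ¬ Rigid2 G} := by
      exact_mod_cast fix_one_le
    have h4 : ∑ π ∈ (Finset.univ : Finset (Equiv.Perm V)).erase 1,
        (Nat.card (MulAction.fixedBy (TGB V) π) : ℝ) * Nat.card (Ker V) ≤
        ∑ π ∈ (Finset.univ : Finset (Equiv.Perm V)).erase 1,
        (Set.ncard {G : SimpleGraph V | ∀ x y z, tr G (π x) (π y) (π z) = tr G x y z} : ℝ) := by
      apply Finset.sum_le_sum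
      intro π _
      exact_mod_cast fix_le π
    have h5 := card_not_rigid (V := V)
    have h6 := card_aut (V := V)
    rw [← hn] at h5 h6
    rw [← hε] at h5 h6
    calc _ ≤ _ := add_le_add (h3.trans h5) (h4.trans h6)
      _ = _ := by ring
  have hε0 : 0 ≤ ε := by
    rcases Nat.eq_zero_or_pos n with h0 | h0
    · rw [hε, h0]; simp
    · rw [hε, sub_nonneg]
      apply one_le_pow₀
      have h7 : (1 : ℝ) ≤ n := by exact_mod_cast h0
      have h8 := (del_pos n).le
      nlinarith [mul_nonneg (sub_nonneg.2 h7) h8]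
  have h3 : (Nat.card (SimpleGraph V) : ℝ) ≤
      Nat.card (SwClass V) * Nat.card (Equiv.Perm V) * Nat.card (Ker V) := by
    exact_mod_cast graphs_le
  have hpos : (0 : ℝ) < Nat.card (Equiv.Perm V) * Nat.card (Ker V) := by
    have := ker_pos (V := V)
    have h9 : 0 < Nat.card (Equiv.Perm V) := Nat.card_pos
    positivity
  have h4 : (Nat.card (BadClass V) : ℝ) * (Nat.card (Equiv.Perm V) * Nat.card (Ker V)) ≤
      (Nat.card (SwClass V) * (((n : ℝ) ^ 2 + n) * ε)) *
        (Nat.card (Equiv.Perm V) * Nat.card (Ker V)) := by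
    calc _ ≤ _ := h1.trans h2
      _ ≤ (Nat.card (SwClass V) * Nat.card (Equiv.Perm V) * Nat.card (Ker V)) *
          (((n : ℝ) ^ 2 + n) * ε) := by gcongr
      _ = _ := by ring
  exact le_of_mul_le_mul_right h4 hpos

end

end Pool.Agent.Helper62.SW
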