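import Pool.Agent.Helper62.SW.Defs

/-!
# The two-graph of a switching class
-/

set_option autoImplicit false

namespace Pool.Agent.Helper62.SW

variable {V W U : Type*}

open Classical in
/-- adjacency indicator -/
noncomputable def ad (G : SimpleGraph V) (x y : V) : ZMod 2 := if G.Adj x y then 1 else 0

/-- parity of the number of edges of the triple `x, y, z` -/
noncomputable def tr (G : SimpleGraph V) (x y z : V) : ZMod 2 := ad G x y + ad G y z + ad G x z

theorem ad_comm (G : SimpleGraph V) (x y : V) : ad G x y = ad G y x := by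
  unfold ad
  by_cases h : G.Adj x y
  · rw [if_pos h, if_pos h.symm]
  · rw [if_neg h, if_neg (fun h' => h h'.symm)]

theorem ad_self (G : SimpleGraph V) (x : V) : ad G x x = 0 := by
  unfold ad
  simp

theorem ad_eq_one {G : SimpleGraph V} {x y : V} : ad G x y = 1 ↔ G.Adj x y := by
  unfold ad
  split_ifs with h <;> simp [h]

theorem ad_eq_zero {G : SimpleGraph V} {x y : V} : ad G x y = 0 ↔ ¬ G.Adj x y := by
  unfold ad
  split_ifs with h <;> simp [h]

theorem graph_ext {G H : SimpleGraph V} (h : ∀ x y, ad G x y = ad H x y) : G = H := by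
  ext x y
  rw [← ad_eq_one, ← ad_eq_one, h]

theorem two_cases (a : ZMod 2) : a = 0 ∨ a = 1 := by
  revert a; decide

theorem add_self2 (a : ZMod 2) : a + a = 0 := by
  revert a; decide

open Classical in
/-- indicator of a set -/
noncomputable def ind (τ : Set V) (x : V) : ZMod 2 := if x ∈ τ then 1 else 0

theorem ad_switch (G : SimpleGraph V) (τ : Set V) {x y : V} (h : x ≠ y) :
    ad (switch G τ) x y = ad G x y + ind τ x + ind τ y := by
  unfold ad switch ind
  by_cases h1 : G.Adj x y <;> by_cases h2 : x ∈ τ <;> by_cases h3 : y ∈ τ <;>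
    simp [h, h1, h2, h3] <;> decide

theorem tr_swap12 (G : SimpleGraph V) (x y z : V) : tr G x y z = tr G y x z := by
  unfold tr
  rw [ad_comm G x y]
  ring

theorem tr_swap23 (G : SimpleGraph V) (x y z : V) : tr G x y z = tr G x z y := by
  unfold tr
  rw [ad_comm G y z]
  ring

theorem tr_self (G : SimpleGraph V) (x z : V) : tr G x x z = 0 := by
  unfold tr
  rw [ad_self, zero_add, add_self2]

theorem tr_self' (G : SimpleGraph V) (x z : V) : tr G x z x = 0 := by
  rw [tr_swap23, tr_self]

theorem tr_self'' (G : SimpleGraph V) (x z : V) : tr G z x x = 0 := by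
  rw [tr_swap12, tr_self']

theorem tr_switch (G : SimpleGraph V) (τ : Set V) (x y z : V) :
    tr (switch G τ) x y z = tr G x y z := by
  classical
  by_cases h1 : x = y
  · subst h1; rw [tr_self, tr_self]
  by_cases h2 : y = z
  · subst h2; rw [tr_self'', tr_self'']
  by_cases h3 : x = z
  · subst h3; rw [tr_self', tr_self']
  unfold tr
  rw [ad_switch G τ h1, ad_switch G τ h2, ad_switch G τ h3]
  linear_combination add_self2 (ind τ x) + add_self2 (ind τ y) + add_self2 (ind τ z)

theorem four (G : SimpleGraph V) (x y z t : V) :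
    tr G x y z = tr G x y t + tr G x z t + tr G y z t := by
  unfold tr
  rw [ad_comm G x z]
  have h1 := add_self2 (ad G x t)
  have h2 := add_self2 (ad G y t)
  have h3 := add_self2 (ad G z t)
  linear_combination - h1 - h2 - h3

/-- switching equivalence in terms of two-graphs -/
theorem swEq_iff (G : SimpleGraph V) (H : SimpleGraph W) :
    SwEq G H ↔ ∃ e : V ≃ W, ∀ x y z, tr H (e x) (e y) (e z) = tr G x y z := by
  classical
  constructor
  · rintro ⟨τ, ⟨φ⟩⟩
    refine ⟨φ.symm.toEquiv, fun x y z => ?_⟩
    have h : ∀ x y, ad H (φ.symm x) (φ.symm y) = ad (switch G τ) x y := by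
      intro x y
      unfold ad
      rw [φ.symm.map_adj_iff]
    rw [← tr_switch G τ]
    unfold tr
    rw [← h, ← h, ← h]
    rfl
  · rintro ⟨e, he⟩
    rcases isEmpty_or_nonempty V with hV | ⟨⟨z0⟩⟩
    · refine ⟨∅, ⟨⟨e.symm, ?_⟩⟩⟩
      intro a b
      exact (hV.false (e.symm a)).elim
    · let s : V → ZMod 2 := fun x => ad H (e x) (e z0) + ad G x z0
      refine ⟨{x | s x = 1}, ⟨⟨e.symm, ?_⟩⟩⟩
      intro a b
      obtain ⟨x, rfl⟩ := e.surjective a
      obtain ⟨y, rfl⟩ := e.surjective b
      by_cases hxy : x = y
      · subst hxy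
        simp
      rw [← ad_eq_one, ← ad_eq_one]
      change ad (switch G {x | s x = 1}) (e.symm (e x)) (e.symm (e y)) = 1 ↔ _
      rw [Equiv.symm_apply_apply, Equiv.symm_apply_apply, ad_switch G _ hxy]
      have h1 : ∀ x, ind {x | s x = 1} x = s x := by
        intro x
        unfold ind
        rcases two_cases (s x) with h | h <;> simp [h]
      rw [h1, h1]
      have h2 := he x y z0
      have h3 : ad G x y + s x + s y = ad H (e x) (e y) := by
        unfold tr at h2
        simp only [s]
        have h7 := add_self2 (ad H (e x) (e z0))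
        have h8 := add_self2 (ad H (e y) (e z0))
        linear_combination h7 + h8 - h2
      rw [h3]

end Pool.Agent.Helper62.SW
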