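import Pool.Agent.Helper62.SW.Count

/-!
# Almost all graphs are rigid: union bound
-/

set_option autoImplicit false

namespace Pool.Agent.Helper62.SW

variable {V : Type*} [Fintype V] [DecidableEq V]

/-- number of moved points -/
def moved (φ : V → V) : Finset V := Finset.univ.filter fun x => φ x ≠ x

theorem pres_bound {u w : V} {φ : V → V} (hφ : Set.InjOn φ ({u, w} : Set V)ᶜ) (hu : φ u = u)
    (hw : φ w = w) : ∃ e : ℕ, (moved φ).card * (Fintype.card V - 8) ≤ 24 * e ∧
      Set.ncard {G : SimpleGraph V | Pres u w φ G} * 2 ^ e ≤ Nat.card (SimpleGraph V) := by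
  classical
  rcases Nat.lt_or_ge (Fintype.card V) 9 with hn | hn
  · refine ⟨0, ?_, ?_⟩
    · have : Fintype.card V - 8 = 0 := by omega
      rw [this]; simp
    · rw [pow_zero, mul_one, ← Set.ncard_univ]
      exact Set.ncard_le_ncard (Set.subset_univ _) (Set.toFinite _)
  -- the domain
  set A : Finset V := Finset.univ \ {u, w} with hA
  have hAmem : ∀ x, x ∈ A ↔ x ∈ ({u, w} : Set V)ᶜ := by
    intro x
    simp [hA]
  have hAcard : Fintype.card V ≤ A.card + 2 := by
    have h1 : (Finset.univ : Finset V).card ≤ A.card + ({u, w} : Finset V).card := by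
      have := Finset.card_le_card_sdiff_add_card (t := ({u, w} : Finset V))
        (s := (Finset.univ : Finset V))
      exact this
    have h2 : ({u, w} : Finset V).card ≤ 2 := Finset.card_le_two
    rw [Finset.card_univ] at h1
    omega
  -- the base point and the moved points used
  have hbase : ∃ z0 ∈ A, ∃ M0 ⊆ A, (∀ x ∈ M0, φ x ≠ x) ∧ z0 ∉ M0 ∧ φ z0 ∉ M0 ∧
      (moved φ).card ≤ 2 * M0.card := by
    by_cases hfix : ∃ z0 ∈ A, φ z0 = z0
    · obtain ⟨z0, hz0, hz⟩ := hfix
      refine ⟨z0, hz0, moved φ, ?_, ?_, ?_, ?_, ?_⟩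
      · intro x hx
        rw [moved, Finset.mem_filter] at hx
        rw [hA, Finset.mem_sdiff, Finset.mem_insert, Finset.mem_singleton]
        refine ⟨Finset.mem_univ _, ?_⟩
        rintro (rfl | rfl)
        · exact hx.2 hu
        · exact hx.2 hw
      · intro x hx
        rw [moved, Finset.mem_filter] at hx
        exact hx.2
      · rw [moved, Finset.mem_filter]
        exact fun h => h.2 hz
      · rw [hz, moved, Finset.mem_filter]
        exact fun h => h.2 hz
      · omega
    · push Not at hfix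
      have hne : A.Nonempty := by
        rw [← Finset.card_pos]; omega
      obtain ⟨z0, hz0⟩ := hne
      refine ⟨z0, hz0, A \ {z0, φ z0}, Finset.sdiff_subset, ?_, ?_, ?_, ?_⟩
      · intro x hx
        exact hfix x (Finset.sdiff_subset hx)
      · simp
      · simp
      · have h1 := Finset.card_le_card_sdiff_add_card (t := ({z0, φ z0} : Finset V)) (s := A)
        have h2 : ({z0, φ z0} : Finset V).card ≤ 2 := Finset.card_le_two
        have h3 : (moved φ).card ≤ Fintype.card V := Finset.card_le_univ _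
        omega
  obtain ⟨z0, hz0, M0, hM0A, hM0, hz0M0, hφz0, hk⟩ := hbase
  have hinj0 : Set.InjOn φ M0 := hφ.mono fun x hx => (hAmem x).1 (hM0A hx)
  obtain ⟨M1, hM10, hM1, hM1card⟩ := exists_independent φ M0 hinj0 hM0
  have h2M1 : 2 * M1.card ≤ Fintype.card V := by
    have h1 : Disjoint M1 (M1.image φ) := by
      rw [Finset.disjoint_left]
      intro x hx hx'
      obtain ⟨y, hy, rfl⟩ := Finset.mem_image.1 hx'
      exact hM1 y hy hx
    have h2 : (M1.image φ).card = M1.card :=
      Finset.card_image_of_injOn (hinj0.mono fun x hx => hM10 hx)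
    have h3 := Finset.card_union_of_disjoint h1
    have h4 : (M1 ∪ M1.image φ).card ≤ Fintype.card V := Finset.card_le_univ _
    omega
  obtain ⟨M, hMM1, hMcard⟩ := Finset.exists_subset_card_eq (s := M1) (n := (M1.card + 1) / 2)
    (by omega)
  set Y : Finset V := Finset.univ.filter fun y => y ∈ A ∧ y ∉ M ∧ φ y ∉ M ∧ y ≠ z0 with hY
  have hYcard : Fintype.card V ≤ Y.card + 3 + 2 * M.card := by
    have hsub : (Finset.univ : Finset V) ⊆ Y ∪ (({u, w} : Finset V) ∪ ({z0} ∪ (M ∪
        A.filter fun y => φ y ∈ M))) := by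
      intro y _
      by_cases h1 : y ∈ A
      · by_cases h2 : y ∈ M
        · simp [h2]
        by_cases h3 : φ y ∈ M
        · simp [h1, h3]
        by_cases h4 : y = z0
        · simp [h4]
        · rw [Finset.mem_union]
          left
          rw [hY, Finset.mem_filter]
          exact ⟨Finset.mem_univ _, h1, h2, h3, h4⟩
      · have h2 : y = u ∨ y = w := by
          rw [hAmem] at h1
          by_contra h2
          exact h1 (by simpa using h2)
        rcases h2 with h | h <;> simp [h]
    have h1 := Finset.card_le_card hsub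
    rw [Finset.card_univ] at h1
    have h2 := Finset.card_union_le Y (({u, w} : Finset V) ∪ ({z0} ∪ (M ∪
        A.filter fun y => φ y ∈ M)))
    have h3 := Finset.card_union_le ({u, w} : Finset V) ({z0} ∪ (M ∪
        A.filter fun y => φ y ∈ M))
    have h4 := Finset.card_union_le ({z0} : Finset V) (M ∪
        A.filter fun y => φ y ∈ M)
    have h5 := Finset.card_union_le M (A.filter fun y => φ y ∈ M)
    have h6 : ({u, w} : Finset V).card ≤ 2 := Finset.card_le_two
    have h7 : ({z0} : Finset V).card = 1 := Finset.card_singleton _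
    have h8 : (A.filter fun y => φ y ∈ M).card ≤ M.card := by
      apply Finset.card_le_card_of_injOn φ
      · intro x hx
        simp only [Finset.coe_filter, Set.mem_ofPred_eq] at hx
        exact hx.2
      · intro x hx y hy hxy
        simp only [Finset.coe_filter, Set.mem_ofPred_eq] at hx hy
        exact hφ ((hAmem x).1 hx.1) ((hAmem y).1 hy.1) hxy
    omega
  refine ⟨M.card * Y.card, ?_, ?_⟩
  · have h1 : M1.card ≤ 2 * M.card := by omega
    have h2 : Fintype.card V - 8 ≤ 2 * Y.card := by omega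
    have h3 : (moved φ).card ≤ 6 * (2 * M.card) := by omega
    calc (moved φ).card * (Fintype.card V - 8) ≤ (6 * (2 * M.card)) * (2 * Y.card) :=
          Nat.mul_le_mul h3 h2
      _ = 24 * (M.card * Y.card) := by ring
  · refine toggle_bound (z0 := z0) ((hAmem z0).1 hz0)
      (fun x hx => (hAmem x).1 (hM0A (hM10 (hMM1 hx)))) ?_ ?_ ?_ ?_ ?_
    · intro y hy
      rw [hY, Finset.mem_filter] at hy
      exact (hAmem y).1 hy.2.1
    · exact fun h => hz0M0 (hM10 (hMM1 h))
    · exact fun h => hφz0 (hM10 (hMM1 h))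
    · exact fun x hx h => hM1 x (hMM1 hx) (hMM1 h)
    · intro y hy
      rw [hY, Finset.mem_filter] at hy
      exact hy.2.2

/-- real form of the bound for one map -/
theorem pres_bound_real {u w : V} {φ : V → V} (hφ : Set.InjOn φ ({u, w} : Set V)ᶜ) (hu : φ u = u)
    (hw : φ w = w) {δ : ℝ} (hδ : δ = (2 : ℝ) ^ (-((Fintype.card V - 8 : ℕ) : ℝ) / 24)) :
    (Set.ncard {G : SimpleGraph V | Pres u w φ G} : ℝ) ≤
      Nat.card (SimpleGraph V) * ∏ x, (if φ x = x then 1 else δ) := by
  obtain ⟨e, he, hb⟩ := pres_bound hφ hu hw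
  have h1 : (∏ x, (if φ x = x then 1 else δ)) = δ ^ (moved φ).card := by
    rw [Finset.prod_ite, Finset.prod_const_one, one_mul, Finset.prod_const]
    rfl
  rw [h1, hδ, ← Real.rpow_natCast, ← Real.rpow_mul (by norm_num)]
  have h2 : (2 : ℝ) ^ (-(e : ℝ)) ≤
      (2 : ℝ) ^ (-((Fintype.card V - 8 : ℕ) : ℝ) / 24 * ((moved φ).card : ℕ)) := by
    apply Real.rpow_le_rpow_of_exponent_le (by norm_num)
    have h3 : ((moved φ).card : ℝ) * ((Fintype.card V - 8 : ℕ) : ℝ) ≤ 24 * e := by exact_mod_cast he
    linarith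
  have h4 : (Set.ncard {G : SimpleGraph V | Pres u w φ G} : ℝ) * 2 ^ e ≤
      Nat.card (SimpleGraph V) := by exact_mod_cast hb
  calc (Set.ncard {G : SimpleGraph V | Pres u w φ G} : ℝ)
      = (Set.ncard {G : SimpleGraph V | Pres u w φ G} : ℝ) * 2 ^ e * (2 : ℝ) ^ (-(e : ℝ)) := by
        rw [mul_assoc, Real.rpow_neg (by norm_num), Real.rpow_natCast, mul_inv_cancel₀ (by positivity),
          mul_one]
    _ ≤ Nat.card (SimpleGraph V) * (2 : ℝ) ^ (-(e : ℝ)) := by gcongr
    _ ≤ _ := by gcongr

theorem sum_maps (δ : ℝ) : ∑ φ : V → V, ∏ x, (if φ x = x then 1 else δ) =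
    (1 + (Fintype.card V - 1) * δ) ^ Fintype.card V := by
  have h1 : ∀ x : V, ∑ y : V, (if y = x then 1 else δ) = 1 + (Fintype.card V - 1) * δ := by
    intro x
    rw [← Finset.add_sum_erase _ _ (Finset.mem_univ x), if_pos rfl]
    congr 1
    rw [Finset.sum_congr rfl (g := fun _ => δ)
      (fun y hy => if_neg (Finset.ne_of_mem_erase hy)), Finset.sum_const,
      Finset.card_erase_of_mem (Finset.mem_univ x), Finset.card_univ, nsmul_eq_mul,
      Nat.cast_sub (Fintype.card_pos_iff.2 ⟨x⟩), Nat.cast_one]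
  rw [← Fintype.prod_sum (fun (x : V) (y : V) => if y = x then (1 : ℝ) else δ)]
  rw [Finset.prod_congr rfl (fun x _ => h1 x), Finset.prod_const, Finset.card_univ]

end Pool.Agent.Helper62.SW
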